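import Mathlib

/-!
MP_8c5d11_gt: the elementary inequalities used in the horseshoe theorem for `R ≤ 2 r`.
-/

set_option autoImplicit false

open Set
open scoped Real

namespace Pool.Agent.W_8c5d11_g83

/-! ### Taylor bounds and constants -/

theorem sin_ge_cubic {x : ℝ} (hx : 0 ≤ x) : x - x ^ 3 / 6 ≤ Real.sin x := by
  have hd : ∀ y : ℝ, HasDerivAt (fun y => Real.sin y - y + y ^ 3 / 6)
      (Real.cos y - 1 + y ^ 2 / 2) y := by
    intro y
    have h := ((Real.hasDerivAt_sin y).sub (hasDerivAt_id' y)).add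
      ((hasDerivAt_pow 3 y).div_const 6)
    exact h.congr_deriv (by norm_num; ring)
  have hm : Monotone (fun y => Real.sin y - y + y ^ 3 / 6) := by
    apply monotone_of_deriv_nonneg (fun y => (hd y).differentiableAt)
    intro y
    rw [(hd y).deriv]
    have := Real.one_sub_sq_div_two_le_cos (x := y)
    show 0 ≤ _
    linarith
  have h0 := hm hx
  simp only [Real.sin_zero] at h0
  linarith

theorem cos_le_quartic {x : ℝ} (hx : 0 ≤ x) : Real.cos x ≤ 1 - x ^ 2 / 2 + x ^ 4 / 24 := by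
  have hd : ∀ y : ℝ, HasDerivAt (fun y => 1 - y ^ 2 / 2 + y ^ 4 / 24 - Real.cos y)
      (-y + y ^ 3 / 6 + Real.sin y) y := by
    intro y
    have h := ((((hasDerivAt_pow 2 y).div_const 2).const_sub 1).add
      ((hasDerivAt_pow 4 y).div_const 24)).sub (Real.hasDerivAt_cos y)
    exact h.congr_deriv (by norm_num; ring)
  have hm : MonotoneOn (fun y => 1 - y ^ 2 / 2 + y ^ 4 / 24 - Real.cos y) (Ici 0) := by
    apply monotoneOn_of_deriv_nonneg (convex_Ici 0)
    · exact fun y _ => (hd y).continuousAt.continuousWithinAt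
    · exact fun y _ => (hd y).differentiableAt.differentiableWithinAt
    · intro y hy
      rw [interior_Ici] at hy
      rw [(hd y).deriv]
      have := sin_ge_cubic (le_of_lt hy)
      linarith
  have h0 := hm (mem_Ici.2 le_rfl) (mem_Ici.2 hx) hx
  simp only [Real.cos_zero] at h0
  linarith

theorem sin_le_quintic {x : ℝ} (hx : 0 ≤ x) : Real.sin x ≤ x - x ^ 3 / 6 + x ^ 5 / 120 := by
  have hd : ∀ y : ℝ, HasDerivAt (fun y => y - y ^ 3 / 6 + y ^ 5 / 120 - Real.sin y)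
      (1 - y ^ 2 / 2 + y ^ 4 / 24 - Real.cos y) y := by
    intro y
    have h := (((hasDerivAt_id' y).sub ((hasDerivAt_pow 3 y).div_const 6)).add
      ((hasDerivAt_pow 5 y).div_const 120)).sub (Real.hasDerivAt_sin y)
    exact h.congr_deriv (by norm_num; ring)
  have hm : MonotoneOn (fun y => y - y ^ 3 / 6 + y ^ 5 / 120 - Real.sin y) (Ici 0) := by
    apply monotoneOn_of_deriv_nonneg (convex_Ici 0)
    · exact fun y _ => (hd y).continuousAt.continuousWithinAt
    · exact fun y _ => (hd y).differentiableAt.differentiableWithinAt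
    · intro y hy
      rw [interior_Ici] at hy
      rw [(hd y).deriv]
      have := cos_le_quartic (le_of_lt hy)
      linarith
  have h0 := hm (mem_Ici.2 le_rfl) (mem_Ici.2 hx) hx
  simp only [Real.sin_zero] at h0
  linarith

theorem pi_bounds : 3.141592 < π ∧ π < 3.141593 := ⟨Real.pi_gt_d6, Real.pi_lt_d6⟩

theorem sqrt3_bd : 1.73205 < Real.sqrt 3 ∧ Real.sqrt 3 < 1.732051 := by
  constructor
  · rw [Real.lt_sqrt (by norm_num)]; norm_num
  · rw [Real.sqrt_lt' (by norm_num)]; norm_num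

theorem sqrt3_sq : Real.sqrt 3 * Real.sqrt 3 = 3 := Real.mul_self_sqrt (by norm_num)

theorem cos_ge_of_le {s : ℝ} (h0 : 0 ≤ s) (h1 : s ≤ π / 6) : Real.sqrt 3 / 2 ≤ Real.cos s := by
  rw [← Real.cos_pi_div_six]
  exact Real.cos_le_cos_of_nonneg_of_le_pi h0 (by linarith [Real.pi_pos]) h1

theorem quart_nonneg {s : ℝ} (h1 : s ≤ 0.5236) (h0 : 0 ≤ s) : 0 ≤ s ^ 2 / 2 - s ^ 4 / 24 := by
  have h : s ^ 2 / 2 - s ^ 4 / 24 = s ^ 2 * (12 - s ^ 2) / 24 := by ring
  rw [h]
  have h2 : 0 ≤ 12 - s ^ 2 := by nlinarith only [h1, h0]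
  positivity

/-! ### one variable -/

theorem I7 {s z t : ℝ} (hs : 0 ≤ s) (hs' : s ≤ π / 6) (hz : s ≤ z) (ht : Real.sqrt 3 - 1 ≤ t) :
    0 ≤ Real.sin s - s + (z + t) * (1 - Real.cos s) := by
  obtain ⟨p1, p2⟩ := pi_bounds
  obtain ⟨q1, q2⟩ := sqrt3_bd
  have h1 := sin_ge_cubic hs
  have h2 := cos_le_quartic hs
  have h3 : (s + 0.73) * (s ^ 2 / 2 - s ^ 4 / 24) ≤ (z + t) * (1 - Real.cos s) := by
    exact mul_le_mul (by linarith) (by linarith only [h2]) (quart_nonneg (by linarith only [hs', p2]) hs) (by linarith only [hs, hz, ht, q1])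
  have hs2 : s ≤ 0.5236 := by linarith only [hs', p2]
  linarith only [h1, h3, mul_nonneg (sq_nonneg s) hs, mul_nonneg (sq_nonneg s) (sub_nonneg.2 hs2), mul_nonneg (mul_nonneg (sq_nonneg s) hs) (sub_nonneg.2 hs2), mul_nonneg (mul_nonneg (sq_nonneg s) (mul_nonneg hs hs)) (sub_nonneg.2 hs2)]

theorem I6 {v t : ℝ} (hv : 0 ≤ v) (hv' : v ≤ π / 6) (ht : Real.sqrt 3 - 1 ≤ t) :
    Real.tan v - v ≤ t * (1 / Real.cos v - 1) := by
  obtain ⟨p1, p2⟩ := pi_bounds
  obtain ⟨q1, q2⟩ := sqrt3_bd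
  have hc := cos_ge_of_le hv hv'
  have hc0 : 0 < Real.cos v := by linarith
  have h1 := sin_le_quintic hv
  have h2 := cos_le_quartic hv
  have h3 := Real.one_sub_sq_div_two_le_cos (x := v)
  have hv2 : v ≤ 0.5236 := by linarith only [hv', p2]
  have hcl : Real.cos v ≤ 1 := Real.cos_le_one v
  have key : Real.sin v - v * Real.cos v ≤ t * (1 - Real.cos v) := by
    have e1 : 0.73 * (v ^ 2 / 2 - v ^ 4 / 24) ≤ t * (1 - Real.cos v) := by
      exact mul_le_mul (by linarith only [ht, q1]) (by linarith only [h2]) (quart_nonneg hv2 hv) (by linarith only [ht, q1])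
    have e2 : v * (1 - v ^ 2 / 2) ≤ v * Real.cos v := mul_le_mul_of_nonneg_left h3 hv
    linarith only [h1, e1, e2, mul_nonneg (sq_nonneg v) hv, mul_nonneg (sq_nonneg v) (sub_nonneg.2 hv2), mul_nonneg (mul_nonneg (sq_nonneg v) hv) (sub_nonneg.2 hv2), mul_nonneg (mul_nonneg (sq_nonneg v) (mul_nonneg hv hv)) (sub_nonneg.2 hv2)]
  rw [Real.tan_eq_sin_div_cos]
  have e3 : Real.sin v / Real.cos v - v = (Real.sin v - v * Real.cos v) / Real.cos v := by
    field_simp
  have e4 : t * (1 / Real.cos v - 1) = t * (1 - Real.cos v) / Real.cos v := by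
    field_simp
  rw [e3, e4]
  exact div_le_div_of_nonneg_right key hc0.le

theorem I8 {b v s : ℝ} (hb0 : 0 < b) (hb1 : b ≤ π / 6) (hv : 0 ≤ v) (hvb : v ≤ b) (hs : 0 ≤ s)
    (hs' : s ≤ π / 6) : (1 - Real.cos v) / Real.sin b ≤ v * Real.cos s := by
  obtain ⟨p1, p2⟩ := pi_bounds
  obtain ⟨q1, q2⟩ := sqrt3_bd
  have hc := cos_ge_of_le hs hs'
  have hsb : 0 < Real.sin b := Real.sin_pos_of_pos_of_lt_pi hb0 (by linarith only [hb0, hb1])
  have h1 : Real.sin v ≤ Real.sin b :=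
    Real.sin_le_sin_of_le_of_le_pi_div_two (by linarith) (by linarith) hvb
  have h2 := sin_ge_cubic hv
  have h3 := Real.one_sub_sq_div_two_le_cos (x := v)
  have hv2 : v ≤ 0.5236 := by linarith only [hb1, hvb, p2]
  rw [div_le_iff₀ hsb]
  have h4 : v * 0.86 * (v - v ^ 3 / 6) ≤ v * Real.cos s * Real.sin b := by
    apply mul_le_mul
    · exact mul_le_mul_of_nonneg_left (by linarith only [q1, hc]) hv
    · linarith only [h1, h2]
    · nlinarith only [hv, mul_nonneg (mul_nonneg hv hv) (sub_nonneg.2 hv2)]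
    · exact mul_nonneg hv (by linarith)
  linarith only [h3, h4, mul_nonneg hv hv, mul_nonneg (mul_nonneg hv hv) (sub_nonneg.2 hv2), mul_nonneg (mul_nonneg (mul_nonneg hv hv) hv) (sub_nonneg.2 hv2)]

theorem I4 {s c : ℝ} (hs : 0 ≤ s) (hs' : s ≤ π / 6) (hc : 1 ≤ c) :
    0 ≤ 1 + π / 6 - s + c - Real.sin s - (π / 3 - s + c) * Real.cos s := by
  obtain ⟨p1, p2⟩ := pi_bounds
  have h1 := Real.sin_le hs
  have h2 := cos_le_quartic hs
  have hs2 : s ≤ 0.5236 := by linarith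
  have h3 : (2.047 - s) * (s ^ 2 / 2 - s ^ 4 / 24) ≤ (π / 3 - s + c) * (1 - Real.cos s) := by
    exact mul_le_mul (by linarith) (by linarith) (quart_nonneg hs2 hs) (by linarith)
  have h4 : 0 ≤ 0.4764 - s + (2.047 - s) * (s ^ 2 / 2 - s ^ 4 / 24) := by
    nlinarith only [mul_nonneg hs (sub_nonneg.2 hs2), mul_nonneg (mul_nonneg (mul_nonneg (mul_nonneg hs hs) hs) hs) (sub_nonneg.2 hs2)]
  linarith only [p2, h1, h3, h4]

/-! ### differences of sines and cosines -/

theorem sin_sub_ge {s e : ℝ} (hs : 0 ≤ s) (hse : s ≤ e) (he : e ≤ π) :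
    (e - s) * Real.cos e ≤ Real.sin e - Real.sin s := by
  rcases eq_or_lt_of_le hse with h | h
  · subst h; simp
  · obtain ⟨c, ⟨hc1, hc2⟩, hc3⟩ := exists_hasDerivAt_eq_slope Real.sin Real.cos h
      Real.continuous_sin.continuousOn (fun x _ => Real.hasDerivAt_sin x)
    have h1 : Real.cos e ≤ Real.cos c :=
      Real.cos_le_cos_of_nonneg_of_le_pi (by linarith) he hc2.le
    have h2 : 0 < e - s := by linarith
    rw [eq_div_iff h2.ne'] at hc3
    nlinarith

theorem cos_sub_le {s e : ℝ} (hs : 0 ≤ s) (hse : s ≤ e) (he : e ≤ π / 2) :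
    Real.cos s - Real.cos e ≤ (e - s) * Real.sin e := by
  rcases eq_or_lt_of_le hse with h | h
  · subst h; simp
  · obtain ⟨c, ⟨hc1, hc2⟩, hc3⟩ := exists_hasDerivAt_eq_slope Real.cos (fun x => -Real.sin x) h
      Real.continuous_cos.continuousOn (fun x _ => Real.hasDerivAt_cos x)
    have h1 : Real.sin c ≤ Real.sin e :=
      Real.sin_le_sin_of_le_of_le_pi_div_two (by linarith [Real.pi_pos]) he hc2.le
    have h2 : 0 < e - s := by linarith
    rw [eq_div_iff h2.ne'] at hc3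
    nlinarith only [hc3, h1, h2]

theorem I5a {s e c : ℝ} (hs : 0 ≤ s) (hse : s ≤ e) (he : e ≤ π / 6) (hc : 1 ≤ c) :
    0 ≤ Real.sin e - Real.sin s - (1 - Real.cos e) * (π / 6) +
      (π / 2 - e - s + c) * (1 - Real.cos s) := by
  obtain ⟨p1, p2⟩ := pi_bounds
  obtain ⟨q1, q2⟩ := sqrt3_bd
  have h1 := sin_sub_ge hs hse (by linarith)
  have h2 := cos_sub_le hs hse (by linarith)
  have hce := cos_ge_of_le (hs.trans hse) he
  have hcs := cos_ge_of_le hs (hse.trans he)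
  have hse' : Real.sin e ≤ 1 / 2 := by
    rw [← Real.sin_pi_div_six]
    exact Real.sin_le_sin_of_le_of_le_pi_div_two (by linarith only [hs, hse, he]) (by linarith) he
  have hcs1 := Real.cos_le_one s
  have h3 : 0 ≤ (e - s) * (Real.cos e - (π / 6) * Real.sin e - 1 + Real.cos s) := by
    apply mul_nonneg (by linarith only [hse])
    nlinarith only [p1, p2, q1, hce, hcs, hse']
  have h4 : 0 ≤ (1 - Real.cos s) * (π / 3 - 2 * s + c) :=
    mul_nonneg (by linarith only [hcs1]) (by linarith only [hse, he, hc])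
  have h5 : (π / 6) * (Real.cos s - Real.cos e) ≤ (π / 6) * ((e - s) * Real.sin e) :=
    mul_le_mul_of_nonneg_left h2 (by linarith only [p1])
  linarith only [h1, h3, h4, h5]

theorem I5b {s e c : ℝ} (hs : 0 ≤ s) (hse : s ≤ e) (he : e ≤ π / 6) (hc : 1 ≤ c) :
    0 ≤ 2 * Real.sin e - e - Real.sin s + (π / 2 - e - s + c) * (1 - Real.cos s) := by
  obtain ⟨p1, p2⟩ := pi_bounds
  obtain ⟨q1, q2⟩ := sqrt3_bd
  have h1 := sin_sub_ge hs hse (by linarith)
  have hce := cos_ge_of_le (hs.trans hse) he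
  have hcs := cos_ge_of_le hs (hse.trans he)
  have hcs1 := Real.cos_le_one s
  have h2 := sin_ge_cubic hs
  have h3 := cos_le_quartic hs
  have hs2 : s ≤ 0.5236 := by linarith only [hse, he, p2]
  have h4 : (2.57 - 2 * s) * (s ^ 2 / 2 - s ^ 4 / 24) ≤
      (π / 2 - 2 * s + c) * (1 - Real.cos s) := by
    exact mul_le_mul (by linarith only [hc, p1]) (by linarith only [h3]) (quart_nonneg hs2 hs) (by linarith only [hs, hse, he, hc])
  have h5 : 0 ≤ - s ^ 3 / 6 + (2.57 - 2 * s) * (s ^ 2 / 2 - s ^ 4 / 24) := by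
    nlinarith only [mul_nonneg (sq_nonneg s) (sub_nonneg.2 hs2), mul_nonneg (mul_nonneg (sq_nonneg s) hs) (sub_nonneg.2 hs2)]
  have h6 : 0 ≤ (e - s) * (2 * Real.cos e - 1 - (1 - Real.cos s)) :=
    mul_nonneg (by linarith only [hse]) (by linarith only [q1, hce, hcs])
  linarith only [h1, h2, h4, h5, h6]

/-! ### three gaps -/

/-- lower bound for `1 / cos (π / 6 + u)` -/
theorem inv_cos_ge {u : ℝ} (h0 : 0 ≤ u) (h1 : u ≤ π / 6) :
    1.1547 + u * (2 / 3) + 0.962 * u ^ 2 ≤ 1 / Real.cos (π / 6 + u) := by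
  obtain ⟨p1, p2⟩ := pi_bounds
  obtain ⟨q1, q2⟩ := sqrt3_bd
  have hpos : 0 < Real.cos (π / 6 + u) :=
    Real.cos_pos_of_mem_Ioo ⟨by linarith, by linarith⟩
  rw [le_div_iff₀ hpos, Real.cos_add, Real.cos_pi_div_six, Real.sin_pi_div_six]
  have h2 := cos_le_quartic h0
  have h3 := sin_ge_cubic h0
  have hu : u ≤ 0.5236 := by linarith
  have hq := sqrt3_sq
  have h4 : Real.sqrt 3 / 2 * Real.cos u - 1 / 2 * Real.sin u ≤
      0.8660255 * (1 - u ^ 2 / 2 + u ^ 4 / 24) - 1 / 2 * (u - u ^ 3 / 6) := by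
    have a1 : 0 ≤ 1 - u ^ 2 / 2 + u ^ 4 / 24 := by nlinarith only [h0, h1, p2]
    have a2 : Real.sqrt 3 / 2 * Real.cos u ≤ 0.8660255 * (1 - u ^ 2 / 2 + u ^ 4 / 24) := by
      have a3 : Real.sqrt 3 / 2 * Real.cos u ≤
          Real.sqrt 3 / 2 * (1 - u ^ 2 / 2 + u ^ 4 / 24) :=
        mul_le_mul_of_nonneg_left h2 (by linarith only [q1])
      have a4 : Real.sqrt 3 / 2 * (1 - u ^ 2 / 2 + u ^ 4 / 24) ≤
          0.8660255 * (1 - u ^ 2 / 2 + u ^ 4 / 24) :=
        mul_le_mul_of_nonneg_right (by linarith only [q2]) a1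
      linarith only [a3, a4]
    linarith only [h3, a2]
  have h5 : (1.1547 + u * (2 / 3) + 0.962 * u ^ 2) *
      (Real.sqrt 3 / 2 * Real.cos u - 1 / 2 * Real.sin u) ≤
      (1.1547 + u * (2 / 3) + 0.962 * u ^ 2) *
      (0.8660255 * (1 - u ^ 2 / 2 + u ^ 4 / 24) - 1 / 2 * (u - u ^ 3 / 6)) :=
    mul_le_mul_of_nonneg_left h4 (by positivity)
  refine h5.trans ?_
  have b1 : 0 ≤ u * (0.5236 - u) := mul_nonneg h0 (by linarith only [hu])
  have b2 : 0 ≤ u ^ 2 * (0.5236 - u) := mul_nonneg (sq_nonneg u) (by linarith only [hu])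
  have b3 : 0 ≤ u ^ 3 * (0.5236 - u) := mul_nonneg (by positivity) (by linarith only [hu])
  have b4 : 0 ≤ u ^ 4 * (0.5236 - u) := mul_nonneg (by positivity) (by linarith only [hu])
  have b5 : 0 ≤ u ^ 5 * (0.5236 - u) := mul_nonneg (by positivity) (by linarith only [hu])
  nlinarith only [b3, b4, b5]

theorem I3 {x y c : ℝ} (hx : 0 ≤ x) (hx' : x ≤ π / 6) (hy : 0 ≤ y) (hy' : y ≤ π / 6)
    (hc : c ≤ π / 6 + Real.sqrt 3 - 1) :
    0 ≤ Real.cos ((x - y) / 2) / Real.cos (π / 6 + (x + y) / 2) - π / 3 -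
      (π / 3 + c) * (2 - Real.cos x - Real.cos y) + (Real.sin x - x * Real.cos x) +
      (Real.sin y - y * Real.cos y) := by
  obtain ⟨p1, p2⟩ := pi_bounds
  obtain ⟨q1, q2⟩ := sqrt3_bd
  have hu := inv_cos_ge (u := (x + y) / 2) (by linarith only [hx, hy]) (by linarith)
  have hx2 : x ≤ 0.5236 := by linarith only [hx', p2]
  have hy2 : y ≤ 0.5236 := by linarith only [hy', p2]
  have hd := Real.one_sub_sq_div_two_le_cos (x := (x - y) / 2)
  have hd2 : 0 ≤ 1 - ((x - y) / 2) ^ 2 / 2 := by nlinarith only [hx, hx', hy, hy', p2]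
  have h1 : (1 - ((x - y) / 2) ^ 2 / 2) *
      (1.1547 + (x + y) / 2 * (2 / 3) + 0.962 * ((x + y) / 2) ^ 2) ≤
      Real.cos ((x - y) / 2) / Real.cos (π / 6 + (x + y) / 2) := by
    rw [div_eq_mul_one_div (Real.cos ((x - y) / 2))]
    exact mul_le_mul hd hu (by positivity) (by linarith only [hd, hd2])
  have key : ∀ z : ℝ, 0 ≤ z → z ≤ 0.5236 → 0.32 * z ^ 3 ≤ Real.sin z - z * Real.cos z := by
    intro z hz hz2
    have a1 := sin_ge_cubic hz
    have a2 := mul_le_mul_of_nonneg_left (cos_le_quartic hz) hz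
    have a3 : 0 ≤ z ^ 3 * (0.5236 - z) := mul_nonneg (by positivity) (by linarith only [hz2])
    have a4 : 0 ≤ z ^ 4 * (0.5236 - z) := mul_nonneg (by positivity) (by linarith only [hz2])
    nlinarith only [a1, a2, a3, a4]
  have kx := key x hx hx2
  have ky := key y hy hy2
  have cx := Real.one_sub_sq_div_two_le_cos (x := x)
  have cy := Real.one_sub_sq_div_two_le_cos (x := y)
  have h2 : (π / 3 + c) * (2 - Real.cos x - Real.cos y) ≤ 2.30285 * ((x ^ 2 + y ^ 2) / 2) := by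
    have e1 : 0 ≤ 2 - Real.cos x - Real.cos y := by
      linarith only [Real.cos_le_one x, Real.cos_le_one y]
    have e2 : (π / 3 + c) * (2 - Real.cos x - Real.cos y) ≤
        2.30285 * (2 - Real.cos x - Real.cos y) :=
      mul_le_mul_of_nonneg_right (by linarith only [hc, p2, q2]) e1
    linarith only [cx, cy, e2]
  have h3 : 0.221 * (x - y) ^ 2 ≥ ((x - y) / 2) ^ 2 / 2 *
      (1.1547 + (x + y) / 2 * (2 / 3) + 0.962 * ((x + y) / 2) ^ 2) := by
    have e0 : ((x + y) / 2) ^ 2 ≤ 0.5236 ^ 2 := by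
      apply pow_le_pow_left₀ (by linarith only [hx, hy]) (by linarith only [hy', p2, hx2])
    have e1 : 1.1547 + (x + y) / 2 * (2 / 3) + 0.962 * ((x + y) / 2) ^ 2 ≤ 1.768 := by
      norm_num at e0 ⊢
      linarith only [hx2, hy2, e0]
    have e2 := mul_le_mul_of_nonneg_left e1 (sq_nonneg (x - y))
    linarith only [e2]
  have h4 : ∀ z : ℝ, 0 ≤ z → z ≤ 0.5236 → -0.505 * z ≤ -1.132 * z ^ 2 + 0.32 * z ^ 3 := by
    intro z hz hz2
    nlinarith only [mul_nonneg hz (sub_nonneg.2 hz2)]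
  have hx4 := h4 x hx hx2
  have hy4 := h4 y hy hy2
  have hxy : 0 ≤ x * y := mul_nonneg hx hy
  have hxy2 : 0 ≤ (0.5236 - x) * (0.5236 - y) := mul_nonneg (by linarith only [hx2]) (by linarith only [hy2])
  have h5 : 0.1074 - 0.1717 * (x + y) + 0.9228 * (x * y) ≥ 0 := by
    rcases le_total (x + y) 0.6 with h | h
    · linarith only [hxy, hxy2]
    · linarith only [hxy, hxy2]
  nlinarith

/-! ### the function `K` -/

noncomputable def Kf (s y W : ℝ) : ℝ :=
  Real.cos ((y + s) / 2) / Real.cos (π / 6 + (y - s) / 2) - Real.sin s + Real.sin y -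
    y * Real.cos y - (π / 3 - s) * Real.cos s + W * (Real.cos y - Real.cos s)

/-- `cos (s / 2) / cos (π / 6 - s / 2)` is `2 / (√3 + tan (s / 2))` -/
theorem soft_ge {s y : ℝ} (hy : 0 ≤ y) (hys : y ≤ s) (hs : s ≤ π / 6) :
    Real.cos (s / 2) / Real.cos (π / 6 - s / 2) ≤
      Real.cos ((y + s) / 2) / Real.cos (π / 6 + (y - s) / 2) := by
  obtain ⟨p1, p2⟩ := pi_bounds
  have c1 : 0 < Real.cos (π / 6 - s / 2) :=
    Real.cos_pos_of_mem_Ioo ⟨by linarith, by linarith⟩
  have c2 : 0 < Real.cos (π / 6 + (y - s) / 2) :=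
    Real.cos_pos_of_mem_Ioo ⟨by linarith, by linarith⟩
  rw [div_le_div_iff₀ c1 c2]
  have e1 : 2 * (Real.cos ((y + s) / 2) * Real.cos (π / 6 - s / 2)) =
      Real.cos (y / 2 + π / 6) + Real.cos (y / 2 + s - π / 6) := by
    have f1 : y / 2 + π / 6 = (y + s) / 2 + (π / 6 - s / 2) := by ring
    have f2 : y / 2 + s - π / 6 = (y + s) / 2 - (π / 6 - s / 2) := by ring
    rw [f1, f2, Real.cos_add ((y + s) / 2), Real.cos_sub ((y + s) / 2)]; ring
  have e2 : 2 * (Real.cos (s / 2) * Real.cos (π / 6 + (y - s) / 2)) =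
      Real.cos (y / 2 + π / 6) + Real.cos (s - π / 6 - y / 2) := by
    have f1 : y / 2 + π / 6 = s / 2 + (π / 6 + (y - s) / 2) := by ring
    have f2 : s - π / 6 - y / 2 = s / 2 - (π / 6 + (y - s) / 2) := by ring
    rw [f1, f2, Real.cos_add (s / 2), Real.cos_sub (s / 2)]; ring
  have e3 : Real.cos (y / 2 + s - π / 6) - Real.cos (s - π / 6 - y / 2) =
      2 * Real.sin (π / 6 - s) * Real.sin (y / 2) := by
    have f1 : y / 2 + s - π / 6 = y / 2 - (π / 6 - s) := by ring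
    have f2 : s - π / 6 - y / 2 = -(y / 2 + (π / 6 - s)) := by ring
    rw [f1, f2, Real.cos_neg, Real.cos_add (y / 2), Real.cos_sub (y / 2)]; ring
  have e4 : 0 ≤ Real.sin (π / 6 - s) * Real.sin (y / 2) :=
    mul_nonneg (Real.sin_nonneg_of_nonneg_of_le_pi (by linarith only [hs]) (by linarith only [hy, hys, hs]))
      (Real.sin_nonneg_of_nonneg_of_le_pi (by linarith only [hy]) (by linarith only [hy, hys, hs]))
  linarith only [e1, e2, e3, e4]

theorem I1 {s : ℝ} (hs0 : 0 ≤ s) (hs : s ≤ π / 6) :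
    0 ≤ Real.cos (s / 2) / Real.cos (π / 6 - s / 2) - Real.sin s - (π / 3 - s) * Real.cos s := by
  obtain ⟨p1, p2⟩ := pi_bounds
  obtain ⟨q1, q2⟩ := sqrt3_bd
  have hs2 : s ≤ 0.5236 := by linarith
  have c1 : 0 < Real.cos (π / 6 - s / 2) :=
    Real.cos_pos_of_mem_Ioo ⟨by linarith, by linarith⟩
  have hch : 0 ≤ s / 2 := by linarith only [hs0]
  have a1 := cos_le_quartic hs0
  have a2 := sin_le_quintic hs0
  have a3 := Real.one_sub_sq_div_two_le_cos (x := s / 2)
  have a4 := Real.sin_le hch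
  have a5 := cos_le_quartic hch
  -- it is enough to bound `cos (π / 6 - s / 2) * (sin s + (π / 3 - s) cos s)`
  have e0 : Real.cos (π / 6 - s / 2) =
      Real.sqrt 3 / 2 * Real.cos (s / 2) + 1 / 2 * Real.sin (s / 2) := by
    rw [Real.cos_sub, Real.cos_pi_div_six, Real.sin_pi_div_six]
  have hX : Real.sin s + (π / 3 - s) * Real.cos s ≤
      s - s ^ 3 / 6 + s ^ 5 / 120 + (1.0472 - s) * (1 - s ^ 2 / 2 + s ^ 4 / 24) := by
    have b1 : (π / 3 - s) * Real.cos s ≤ (1.0472 - s) * (1 - s ^ 2 / 2 + s ^ 4 / 24) :=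
      mul_le_mul (by linarith only [p2]) a1 (by linarith only [q1, cos_ge_of_le hs0 hs]) (by linarith only [hs2])
    linarith only [a2, b1]
  have hX0 : 0 ≤ Real.sin s + (π / 3 - s) * Real.cos s :=
    add_nonneg (Real.sin_nonneg_of_nonneg_of_le_pi hs0 (by linarith only [hs0, hs]))
      (mul_nonneg (by linarith only [hs0, hs]) (by linarith only [q1, cos_ge_of_le hs0 hs]))
  have hY : Real.cos (π / 6 - s / 2) ≤ 0.8660255 * Real.cos (s / 2) + s / 4 := by
    rw [e0]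
    have : 0 ≤ Real.cos (s / 2) := by nlinarith only [hs2, hch, a3]
    nlinarith only [q2, a4, this]
  have hc2 : 1 - (s / 2) ^ 2 / 2 ≤ Real.cos (s / 2) := a3
  have key : Real.cos (π / 6 - s / 2) * (Real.sin s + (π / 3 - s) * Real.cos s) ≤
      Real.cos (s / 2) := by
    have k1 : Real.cos (π / 6 - s / 2) * (Real.sin s + (π / 3 - s) * Real.cos s) ≤
        (0.8660255 * Real.cos (s / 2) + s / 4) *
        (s - s ^ 3 / 6 + s ^ 5 / 120 + (1.0472 - s) * (1 - s ^ 2 / 2 + s ^ 4 / 24)) :=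
      mul_le_mul hY hX hX0 (by linarith only [c1, hY])
    -- the second factor is at most `1.0472 - 0.45 s ^ 2`
    have k2 : s - s ^ 3 / 6 + s ^ 5 / 120 + (1.0472 - s) * (1 - s ^ 2 / 2 + s ^ 4 / 24) ≤
        1.0472 - 0.34 * s ^ 2 := by
      have b2 : 0 ≤ s ^ 2 * (0.5236 - s) := mul_nonneg (sq_nonneg s) (by linarith only [hs2])
      have b3 : 0 ≤ s ^ 3 * (0.5236 - s) := mul_nonneg (by positivity) (by linarith only [hs2])
      have b4 : 0 ≤ s ^ 4 * (0.5236 - s) := mul_nonneg (by positivity) (by linarith only [hs2])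
      nlinarith only [b2, b3]
    have k3 : 0 ≤ 0.8660255 * Real.cos (s / 2) + s / 4 := by linarith only [c1, hY]
    have k4 := mul_le_mul_of_nonneg_left k2 k3
    have k5 : (0.8660255 * Real.cos (s / 2) + s / 4) * (1.0472 - 0.34 * s ^ 2) ≤
        Real.cos (s / 2) := by
      have k6 : 0 ≤ 1 - 0.8660255 * (1.0472 - 0.34 * s ^ 2) := by linarith only [sq_nonneg s]
      have k7 := mul_le_mul_of_nonneg_right hc2 k6
      have b2 : 0 ≤ s * (0.5236 - s) := mul_nonneg hs0 (by linarith only [hs2])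
      have b3 : 0 ≤ s ^ 2 * (0.5236 - s) := mul_nonneg (sq_nonneg s) (by linarith only [hs2])
      have b4 : 0 ≤ s ^ 3 * (0.5236 - s) := mul_nonneg (by positivity) (by linarith only [hs2])
      nlinarith only [k7, b2, b4]
    linarith only [k1, k4, k5]
  have e1 : Real.sin s + (π / 3 - s) * Real.cos s ≤ Real.cos (s / 2) / Real.cos (π / 6 - s / 2) := by
    rw [le_div_iff₀ c1]
    linarith only [key]
  linarith only [e1]

/-- `ψ v = sin v - v cos v` is nonnegative for `0 ≤ v ≤ π / 2` -/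
theorem sin_sub_mul_cos_nonneg {v : ℝ} (h0 : 0 ≤ v) (h1 : v ≤ 0.5236) :
    0 ≤ Real.sin v - v * Real.cos v := by
  have a1 := sin_ge_cubic h0
  have a2 := mul_le_mul_of_nonneg_left (cos_le_quartic h0) h0
  have a3 : 0 ≤ v ^ 3 * (0.5236 - v) := mul_nonneg (by positivity) (by linarith)
  have a4 : 0 ≤ v ^ 4 * (0.5236 - v) := mul_nonneg (by positivity) (by linarith)
  have a5 : 0 ≤ v ^ 3 := by positivity
  linarith only [a1, a2, a3, a4, a5]

theorem Kf_nonneg_left {s y W : ℝ} (hy : 0 ≤ y) (hys : y ≤ s) (hs : s ≤ π / 6) (hW : 0 ≤ W) :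
    0 ≤ Kf s y W := by
  obtain ⟨p1, p2⟩ := pi_bounds
  have h1 := soft_ge hy hys hs
  have h2 := I1 (hy.trans hys) hs
  have h3 := sin_sub_mul_cos_nonneg hy (by linarith)
  have h4 : Real.cos s ≤ Real.cos y :=
    Real.cos_le_cos_of_nonneg_of_le_pi hy (by linarith) hys
  have h5 : 0 ≤ W * (Real.cos y - Real.cos s) := mul_nonneg hW (by linarith only [h4])
  unfold Kf
  linarith

/-- the identity behind the comparison of the two terminal values -/
theorem soft_diag {s y : ℝ} (hs : 0 ≤ s) (hsy : s ≤ y) (hy : y ≤ π / 6) :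
    2 / Real.sqrt 3 * Real.cos s + 2 / 3 * Real.sin (π / 6 - s) * (y - s) ≤
      Real.cos ((y + s) / 2) / Real.cos (π / 6 + (y - s) / 2) := by
  obtain ⟨p1, p2⟩ := pi_bounds
  obtain ⟨q1, q2⟩ := sqrt3_bd
  have hq := sqrt3_sq
  have hq0 : 0 < Real.sqrt 3 := by linarith
  set δ := (y - s) / 2 with hδ
  have hδ0 : 0 ≤ δ := by rw [hδ]; linarith
  have hδ1 : δ ≤ 0.2618 := by rw [hδ]; linarith only [hs, hy, p2]
  have c2 : 0 < Real.cos (π / 6 + δ) :=
    Real.cos_pos_of_mem_Ioo ⟨by linarith only [p1, hδ0], by linarith⟩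
  rw [le_div_iff₀ c2]
  have hS : 0 ≤ Real.sin (π / 6 - s) :=
    Real.sin_nonneg_of_nonneg_of_le_pi (by linarith only [hsy, hy]) (by linarith)
  -- numerator identity
  have e1 : Real.cos ((y + s) / 2) * (Real.sqrt 3 / 2) - Real.cos s * Real.cos (π / 6 + δ) =
      Real.sin (π / 6 - s) * Real.sin δ := by
    have f1 : (y + s) / 2 = s + δ := by rw [hδ]; ring
    rw [f1, Real.cos_add s δ, Real.cos_add (π / 6) δ, Real.sin_sub, Real.cos_pi_div_six,
      Real.sin_pi_div_six]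
    ring
  -- `sin δ / cos (π / 6 + δ) ≥ δ / cos (π / 6)`
  have e2 : δ * Real.cos (π / 6 + δ) ≤ Real.sqrt 3 / 2 * Real.sin δ := by
    rw [Real.cos_add, Real.cos_pi_div_six, Real.sin_pi_div_six]
    have g1 := sin_sub_mul_cos_nonneg hδ0 (by linarith only [hδ1])
    have g2 : 0 ≤ Real.sin δ := Real.sin_nonneg_of_nonneg_of_le_pi hδ0 (by linarith only [p1, hδ1])
    nlinarith only [hq0, g1, mul_nonneg hδ0 g2]
  have e3 := mul_le_mul_of_nonneg_left e2 hS
  have hys : y - s = 2 * δ := by rw [hδ]; ring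
  rw [hys]
  have e4 : 2 / Real.sqrt 3 = 2 * Real.sqrt 3 / 3 := by
    field_simp
    linarith only [hq]
  rw [e4]
  have k1 : Real.cos ((y + s) / 2) = 2 * Real.sqrt 3 / 3 * (Real.cos s * Real.cos (π / 6 + δ)) +
      2 * Real.sqrt 3 / 3 * (Real.sin (π / 6 - s) * Real.sin δ) := by
    have : 2 * Real.sqrt 3 / 3 * (Real.sqrt 3 / 2) = 1 := by linarith only [hq]
    calc Real.cos ((y + s) / 2) = 2 * Real.sqrt 3 / 3 *
          (Real.cos ((y + s) / 2) * (Real.sqrt 3 / 2)) := by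
          rw [mul_comm (Real.cos ((y + s) / 2)), ← mul_assoc, this, one_mul]
      _ = _ := by
          have : Real.cos ((y + s) / 2) * (Real.sqrt 3 / 2) =
              Real.cos s * Real.cos (π / 6 + δ) + Real.sin (π / 6 - s) * Real.sin δ := by
            linarith only [e1]
          rw [this]; ring
  rw [k1]
  have k2 := mul_le_mul_of_nonneg_left e3 (by norm_num : (0 : ℝ) ≤ 4 / 3)
  have k3 : (2 * Real.sqrt 3 / 3 * Real.cos s + 2 / 3 * Real.sin (π / 6 - s) * (2 * δ)) *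
      Real.cos (π / 6 + δ) = 2 * Real.sqrt 3 / 3 * (Real.cos s * Real.cos (π / 6 + δ)) +
      4 / 3 * (Real.sin (π / 6 - s) * (δ * Real.cos (π / 6 + δ))) := by ring
  have k4 : 4 / 3 * (Real.sin (π / 6 - s) * (Real.sqrt 3 / 2 * Real.sin δ)) =
      2 * Real.sqrt 3 / 3 * (Real.sin (π / 6 - s) * Real.sin δ) := by ring
  rw [k3]
  linarith only [k2]

/-- `ψ y - ψ s ≥ s (cos s - cos y)` for `ψ v = sin v - v cos v` -/
theorem psi_sub_ge {s y : ℝ} (hs : 0 ≤ s) (hsy : s ≤ y) (hy : y ≤ π / 2) :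
    s * (Real.cos s - Real.cos y) ≤
      (Real.sin y - y * Real.cos y) - (Real.sin s - s * Real.cos s) := by
  have h1 := sin_sub_ge hs hsy (by linarith [Real.pi_pos])
  linarith only [h1]

theorem Kf_nonneg_right {s y W : ℝ} (hs : 0 ≤ s) (hsy : s ≤ y) (hy : y ≤ π / 6)
    (hW : W ≤ π / 6 - s + (π / 6 + Real.sqrt 3 - 1)) : 0 ≤ Kf s y W := by
  obtain ⟨p1, p2⟩ := pi_bounds
  obtain ⟨q1, q2⟩ := sqrt3_bd
  have hq := sqrt3_sq
  have hq0 : 0 < Real.sqrt 3 := by linarith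
  have h1 := soft_diag hs hsy hy
  have h2 := psi_sub_ge hs hsy (by linarith only [hs, hsy, hy])
  have h3 : Real.cos y ≤ Real.cos s :=
    Real.cos_le_cos_of_nonneg_of_le_pi hs (by linarith only [hs, hsy, hy]) hsy
  have h4 : (π / 6 - s + (π / 6 + Real.sqrt 3 - 1)) * (Real.cos y - Real.cos s) ≤
      W * (Real.cos y - Real.cos s) :=
    mul_le_mul_of_nonpos_right hW (by linarith only [h3])
  -- the lower bound
  have h5 : (2 / Real.sqrt 3 - π / 3) * Real.cos s + 2 / 3 * Real.sin (π / 6 - s) * (y - s) -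
      (π / 3 + Real.sqrt 3 - 1 - 2 * s) * (Real.cos s - Real.cos y) ≤ Kf s y W := by
    unfold Kf
    linarith only [h1, h2, h4]
  refine le_trans ?_ h5
  set δ := y - s with hδ
  set D := π / 6 - s with hD
  have hδ0 : 0 ≤ δ := by rw [hδ]; linarith only [hsy]
  have hδD : δ ≤ D := by rw [hδ, hD]; linarith only [hy]
  have hD1 : D ≤ 0.5236 := by rw [hD]; linarith only [hs, p2]
  have hD0 : 0 ≤ D := hδ0.trans hδD
  have hsD : s = π / 6 - D := by rw [hD]; ring
  -- cos s - cos y ≤ δ (s + δ / 2)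
  have h6 : Real.cos s - Real.cos y ≤ δ * (s + δ / 2) := by
    have f1 : Real.cos s - Real.cos y = 2 * Real.sin ((y + s) / 2) * Real.sin ((y - s) / 2) := by
      rw [Real.cos_sub_cos]
      have g1 : (s + y) / 2 = (y + s) / 2 := by ring
      have g2 : (s - y) / 2 = -((y - s) / 2) := by ring
      rw [g1, g2, Real.sin_neg]; ring
    rw [f1, ← hδ]
    have g3 : Real.sin ((y + s) / 2) ≤ (y + s) / 2 := Real.sin_le (by linarith only [hs, hsy])
    have g4 : Real.sin (δ / 2) ≤ δ / 2 := Real.sin_le (by linarith only [hδ0])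
    have g5 : 0 ≤ Real.sin (δ / 2) :=
      Real.sin_nonneg_of_nonneg_of_le_pi (by linarith only [hδ0]) (by linarith only [hs, hy, p1])
    have g6 : Real.sin ((y + s) / 2) * Real.sin (δ / 2) ≤ (y + s) / 2 * (δ / 2) :=
      mul_le_mul g3 g4 g5 (by linarith only [hs, hsy])
    have g7 : (y + s) / 2 = s + δ / 2 := by rw [hδ]; ring
    rw [g7] at g6 ⊢
    linarith only [g6]
  have h7 := sin_ge_cubic hD0
  have h8 := Real.one_sub_sq_div_two_le_cos (x := s)
  have hA : 0.1074 ≤ 2 / Real.sqrt 3 - π / 3 := by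
    have : 1.1546 ≤ 2 / Real.sqrt 3 := by
      rw [le_div_iff₀ hq0]; linarith only [q2]
    linarith only [p2, this]
  have hcs : 0 ≤ 1 - s ^ 2 / 2 := by nlinarith only [hs, hsy, hy, p2]
  have h9 : 0.1074 * (1 - s ^ 2 / 2) ≤ (2 / Real.sqrt 3 - π / 3) * Real.cos s :=
    mul_le_mul hA h8 hcs (by linarith only [hA])
  have h10 : (π / 3 + Real.sqrt 3 - 1 - 2 * s) * (Real.cos s - Real.cos y) ≤
      (π / 3 + Real.sqrt 3 - 1 - 2 * s) * (δ * (s + δ / 2)) :=
    mul_le_mul_of_nonneg_left h6 (by linarith only [hsy, hy, q1])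
  have h11 : 2 / 3 * (D - D ^ 3 / 6) * δ ≤ 2 / 3 * Real.sin D * δ :=
    mul_le_mul_of_nonneg_right (by linarith only [h7]) hδ0
  have h12 : π / 3 + Real.sqrt 3 - 1 - 2 * s = Real.sqrt 3 - 1 + 2 * D := by rw [hD]; ring
  rw [h12] at h10 ⊢
  -- reduce to `δ = D`
  set k := (Real.sqrt 3 - 1 + 2 * D) / 2 with hk
  set b := 2 / 3 * (D - D ^ 3 / 6) - (Real.sqrt 3 - 1 + 2 * D) * s with hb
  have hk0 : 0 ≤ k := by rw [hk]; linarith only [hsy, hy, q1, hD]
  have main : 0 ≤ 0.1074 * (1 - s ^ 2 / 2) + δ * (b - k * δ) := by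
    rcases le_or_gt 0 (b - k * D) with h | h
    · have : 0 ≤ b - k * δ := by nlinarith only [hδD, hk0, h]
      have := mul_nonneg hδ0 this
      have := mul_nonneg (by norm_num : (0 : ℝ) ≤ 0.1074) hcs
      linarith
    · have i1 : D * (b - k * D) ≤ δ * (b - k * δ) := by
        have j1 : δ * (b - k * D) ≤ δ * (b - k * δ) :=
          mul_le_mul_of_nonneg_left (by nlinarith only [hδD, hk0]) hδ0
        have j2 : D * (b - k * D) ≤ δ * (b - k * D) :=
          mul_le_mul_of_nonpos_right hδD h.le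
        linarith only [j1, j2]
      have i2 : 0 ≤ 0.1074 * (1 - s ^ 2 / 2) + D * (b - k * D) := by
        have j0 : s ≤ 0.5236 - D := by rw [hsD]; linarith only [p2]
        have j1 : s ^ 2 ≤ (0.5236 - D) ^ 2 := by nlinarith only [hs, p2, hD]
        have j2 : D * (b - k * D) = 2 / 3 * (D ^ 2 - D ^ 4 / 6) -
            (Real.sqrt 3 - 1) * (D * s + D ^ 2 / 2) - 2 * D ^ 2 * s - D ^ 3 := by
          rw [hb, hk]; ring
        have j3 : (Real.sqrt 3 - 1) * (D * s + D ^ 2 / 2) ≤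
            0.7321 * (D * (0.5236 - D) + D ^ 2 / 2) := by
          apply mul_le_mul (by linarith only [q2]) _ (by positivity) (by norm_num)
          have := mul_le_mul_of_nonneg_left j0 hD0
          linarith only [this]
        have j4 : 2 * D ^ 2 * s ≤ 2 * D ^ 2 * (0.5236 - D) :=
          mul_le_mul_of_nonneg_left j0 (by positivity)
        rw [j2]
        have j5 : 0 ≤ D * (D - 0.37) ^ 2 := mul_nonneg hD0 (sq_nonneg _)
        have j6 : 0 ≤ D ^ 3 * (0.5236 - D) := mul_nonneg (by positivity) (by linarith only [hD1])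
        linarith only [hD0, j1, j3, j4, j5, j6, sq_nonneg (D - 0.37)]
      linarith only [i1, i2]
  have hfin : δ * (b - k * δ) = 2 / 3 * (D - D ^ 3 / 6) * δ -
      (Real.sqrt 3 - 1 + 2 * D) * (δ * (s + δ / 2)) := by
    rw [hb, hk]; ring
  rw [hfin] at main
  linarith only [h9, h10, h11, main]

/-! ### the last one -/

theorem I9 {s y k : ℝ} (hs : 0 ≤ s) (hs' : s ≤ π / 6) (hy : 0 ≤ y) (hy' : y ≤ π / 6) (hk : 0 ≤ k)
    (hk' : k ≤ π / 6 - s) :
    Real.cos ((y + s) / 2) / Real.cos (π / 6 + (y - s) / 2) - (π / 6 - s) * Real.cos s ≤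
      Real.cos ((π / 6 + y - k) / 2) / Real.cos ((π / 6 + y + k) / 2) - k * Real.cos s := by
  obtain ⟨p1, p2⟩ := pi_bounds
  obtain ⟨q1, q2⟩ := sqrt3_bd
  have c1 : 0 < Real.cos (π / 6 + (y - s) / 2) :=
    Real.cos_pos_of_mem_Ioo ⟨by linarith, by linarith only [hs, hy', p1]⟩
  have c2 : 0 < Real.cos ((π / 6 + y + k) / 2) :=
    Real.cos_pos_of_mem_Ioo ⟨by linarith, by linarith⟩
  have hc := cos_ge_of_le hs hs'
  set δ := π / 6 - s - k with hδ
  have hδ0 : 0 ≤ δ := by rw [hδ]; linarith only [hk']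
  have e1 : Real.cos ((y + s) / 2) * Real.cos ((π / 6 + y + k) / 2) -
      Real.cos ((π / 6 + y - k) / 2) * Real.cos (π / 6 + (y - s) / 2) =
      Real.sin (π / 6 + y) * Real.sin (δ / 2) := by
    have f1 : 2 * (Real.cos ((y + s) / 2) * Real.cos ((π / 6 + y + k) / 2)) =
        Real.cos ((π / 6 + y) - δ / 2) + Real.cos ((π / 6 + k - s) / 2) := by
      have g1 : (π / 6 + y) - δ / 2 = (π / 6 + y + k) / 2 + (y + s) / 2 := by rw [hδ]; ring
      have g2 : (π / 6 + k - s) / 2 = (π / 6 + y + k) / 2 - (y + s) / 2 := by ring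
      rw [g1, g2, Real.cos_add ((π / 6 + y + k) / 2), Real.cos_sub ((π / 6 + y + k) / 2)]; ring
    have f2 : 2 * (Real.cos ((π / 6 + y - k) / 2) * Real.cos (π / 6 + (y - s) / 2)) =
        Real.cos ((π / 6 + y) + δ / 2) + Real.cos ((π / 6 + k - s) / 2) := by
      have g1 : (π / 6 + y) + δ / 2 = (π / 6 + (y - s) / 2) + (π / 6 + y - k) / 2 := by
        rw [hδ]; ring
      have g2 : (π / 6 + k - s) / 2 = (π / 6 + (y - s) / 2) - (π / 6 + y - k) / 2 := by ring
      rw [g1, g2, Real.cos_add (π / 6 + (y - s) / 2), Real.cos_sub (π / 6 + (y - s) / 2)]; ring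
    have f3 : Real.cos ((π / 6 + y) - δ / 2) - Real.cos ((π / 6 + y) + δ / 2) =
        2 * (Real.sin (π / 6 + y) * Real.sin (δ / 2)) := by
      rw [Real.cos_sub (π / 6 + y), Real.cos_add (π / 6 + y)]; ring
    linarith only [f1, f2, f3]
  have hsa : Real.sin (π / 6 + y) ≤ Real.sqrt 3 / 2 := by
    rw [← Real.sin_pi_div_three]
    exact Real.sin_le_sin_of_le_of_le_pi_div_two (by linarith only [hy, hy']) (by linarith only [p1]) (by linarith only [hy'])
  have hsa0 : 0 ≤ Real.sin (π / 6 + y) :=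
    Real.sin_nonneg_of_nonneg_of_le_pi (by linarith only [hs, hs', hy]) (by linarith only [hy, hy'])
  have hsd : Real.sin (δ / 2) ≤ δ / 2 := Real.sin_le (by linarith only [hδ0])
  have hsd0 : 0 ≤ Real.sin (δ / 2) :=
    Real.sin_nonneg_of_nonneg_of_le_pi (by linarith only [hδ0]) (by linarith only [hs, hs', hk, hδ])
  -- product of the two cosines is at least one half
  have hcos : Real.cos (π / 6 + (y - s) / 2) ≤ Real.cos ((π / 6 + y + k) / 2) :=
    Real.cos_le_cos_of_nonneg_of_le_pi (by linarith only [hy, hy', hk]) (by linarith only [hs, hy, hy']) (by linarith only [hδ, hδ0])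
  have hsq : 1 / 2 ≤ Real.cos (π / 6 + (y - s) / 2) ^ 2 := by
    rw [Real.cos_sq]
    have g1 : 0 ≤ Real.cos (2 * (π / 6 + (y - s) / 2)) :=
      Real.cos_nonneg_of_mem_Icc ⟨by linarith only [hs, hs', hy], by linarith only [hs, hy']⟩
    linarith only [g1]
  have hprod : 1 / 2 ≤ Real.cos ((π / 6 + y + k) / 2) * Real.cos (π / 6 + (y - s) / 2) := by
    nlinarith only [c1, hcos, hsq]
  have e2 : Real.cos ((y + s) / 2) / Real.cos (π / 6 + (y - s) / 2) -
      Real.cos ((π / 6 + y - k) / 2) / Real.cos ((π / 6 + y + k) / 2) =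
      Real.sin (π / 6 + y) * Real.sin (δ / 2) /
      (Real.cos ((π / 6 + y + k) / 2) * Real.cos (π / 6 + (y - s) / 2)) := by
    rw [← e1, div_sub_div _ _ c1.ne' c2.ne']
    congr 1 <;> ring
  have e3 : Real.sin (π / 6 + y) * Real.sin (δ / 2) /
      (Real.cos ((π / 6 + y + k) / 2) * Real.cos (π / 6 + (y - s) / 2)) ≤ δ * Real.cos s := by
    rw [div_le_iff₀ (by positivity)]
    have g1 : Real.sin (π / 6 + y) * Real.sin (δ / 2) ≤ Real.sqrt 3 / 2 * (δ / 2) :=
      mul_le_mul hsa hsd hsd0 (by linarith only [hsa, hsa0])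
    have g2 : δ * (Real.sqrt 3 / 2) ≤ δ * Real.cos s := mul_le_mul_of_nonneg_left hc hδ0
    have g3 : δ * Real.cos s * (1 / 2) ≤ δ * Real.cos s *
        (Real.cos ((π / 6 + y + k) / 2) * Real.cos (π / 6 + (y - s) / 2)) :=
      mul_le_mul_of_nonneg_left hprod (mul_nonneg hδ0 (by linarith only [q1, hc]))
    linarith only [g1, g2, g3]
  have e4 : (π / 6 - s) * Real.cos s - k * Real.cos s = δ * Real.cos s := by rw [hδ]; ring
  linarith only [e2, e3, e4]

end Pool.Agent.W_8c5d11_g83
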