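import Pool.Agent.W_8c5d11_h65.Split
import Pool.Agent.W_8c5d11_g83.Ineq

/-!
MP_8c5d11_gt: all the elementary inequalities of the splits.
-/

set_option autoImplicit false

open Set
open scoped Real

namespace Pool.Agent.W_8c5d11_g83

theorem ineqs : Pool.Agent.W_8c5d11_h65.Ineqs where
  Kl := fun _ _ _ h1 h2 h3 h4 => Kf_nonneg_left h1 h2 h3 h4
  Kr := fun _ _ _ h1 h2 h3 h4 => Kf_nonneg_right h1 h2 h3 h4
  I4 := fun _ _ h1 h2 h3 => I4 h1 h2 h3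
  I5a := fun _ _ _ h1 h2 h3 h4 => I5a h1 h2 h3 h4
  I5b := fun _ _ _ h1 h2 h3 h4 => I5b h1 h2 h3 h4
  I8 := fun _ _ _ h1 h2 h3 h4 h5 h6 => I8 h1 h2 h3 h4 h5 h6
  I9 := fun _ _ _ h1 h2 h3 h4 h5 h6 => I9 h1 h2 h3 h4 h5 h6

end Pool.Agent.W_8c5d11_g83
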